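import Pool.Agent.helper64.AX.SpecD

/-!
# Project AX (MP_2e0e07_nt), row CAB: `p`-subgroups of `GL_m(k)`, `m < p`, are commutative
-/

set_option autoImplicit false

namespace Pool.Agent.AX

open Matrix

/-- a nontrivial normal subgroup of a finite `p`-group meets the centre -/
theorem CAB_meet {p : ℕ} [Fact p.Prime] {G : Type*} [Group G] [Finite G] (hG : IsPGroup p G) (N : Subgroup G)
    [N.Normal] (hN : N ≠ ⊥) : ∃ z ∈ N, z ≠ 1 ∧ ∀ g : G, g * z = z * g := by
  have hG' : IsPGroup p (ConjAct G) := hG.of_equiv ConjAct.toConjAct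
  have hcard : p ∣ Nat.card N := by
    have h1 : IsPGroup p N := hG.to_subgroup N
    obtain ⟨n, hn⟩ := IsPGroup.iff_card.mp h1
    have h2 : Nat.card N ≠ 1 := by
      intro h3
      exact hN (Subgroup.card_eq_one.mp h3)
    rcases Nat.eq_zero_or_pos n with h0 | h0
    · subst h0
      rw [pow_zero] at hn
      exact absurd hn h2
    · rw [hn]
      exact dvd_pow_self p (by omega)
  have h1 : (1 : N) ∈ MulAction.fixedPoints (ConjAct G) N := by
    intro g
    exact smul_one g
  obtain ⟨b, hb, hb1⟩ := hG'.exists_fixed_point_of_prime_dvd_card_of_fixed_point N hcard h1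
  refine ⟨b, b.2, ?_, ?_⟩
  · intro h2
    apply hb1
    symm
    exact Subtype.ext h2
  · intro g
    have h2 : (ConjAct.toConjAct g) • b = b := hb (ConjAct.toConjAct g)
    have h3 := congrArg (Subtype.val) h2
    rw [ConjAct.Subgroup.val_conj_smul, ConjAct.toConjAct_smul] at h3
    calc g * (b : G) = (g * b * g⁻¹) * g := by group
      _ = b * g := by rw [h3]

/-- an endomorphism `f ≠ 1` with `f ^ p = 1` has an eigenvalue `ζ ≠ 1` with `ζ ^ p = 1` -/
theorem CAB_eig {p : ℕ} {k V : Type*} [Field k] [IsAlgClosed k] [AddCommGroup V] [Module k V]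
    [FiniteDimensional k V] (hp : (p : k) ≠ 0) (f : Module.End k V) (hf : f ^ p = 1) (hf1 : f ≠ 1) :
    ∃ ζ : k, ζ ≠ 1 ∧ ζ ^ p = 1 ∧ f.HasEigenvalue ζ := by
  let W := LinearMap.range (f - 1)
  have hW : W ≠ ⊥ := by
    intro h
    apply hf1
    rw [LinearMap.range_eq_bot] at h
    exact sub_eq_zero.mp h
  have hmaps : ∀ x ∈ W, f x ∈ W := by
    rintro x ⟨y, rfl⟩
    refine ⟨f y, ?_⟩
    simp [LinearMap.sub_apply]
  have : Nontrivial W := Submodule.nontrivial_iff_ne_bot.mpr hW
  obtain ⟨ζ, hζ⟩ := Module.End.exists_eigenvalue (f.restrict hmaps)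
  obtain ⟨v, hv⟩ := hζ.exists_hasEigenvector
  have hv0 : (v : V) ≠ 0 := by
    intro h
    exact hv.2 (Subtype.ext h)
  have hfv : f (v : V) = ζ • (v : V) := by
    have h1 := hv.apply_eq_smul
    have h2 := congrArg Subtype.val h1
    exact h2
  have hpow : ∀ i : ℕ, (f ^ i) (v : V) = ζ ^ i • (v : V) := by
    intro i
    induction i with
    | zero => simp
    | succ i ih =>
      rw [pow_succ', Module.End.mul_apply, ih, map_smul, hfv, smul_smul, pow_succ]
  have hζp : ζ ^ p = 1 := by
    have h1 := hpow p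
    rw [hf, Module.End.one_apply] at h1
    have h2 : (ζ ^ p - 1) • (v : V) = 0 := by
      rw [sub_smul, one_smul, ← h1, sub_self]
    rcases smul_eq_zero.mp h2 with h3 | h3
    · exact sub_eq_zero.mp h3
    · exact absurd h3 hv0
  refine ⟨ζ, ?_, hζp, Module.End.hasEigenvalue_of_hasEigenvector
    ⟨Module.End.mem_eigenspace_iff.mpr hfv, hv0⟩⟩
  intro hζ1
  obtain ⟨y, hy⟩ := v.2
  have hgeom : (∑ i ∈ Finset.range p, f ^ i) * (f - 1) = 0 := by
    rw [geom_sum_mul, hf, sub_self]
  have h1 : (∑ i ∈ Finset.range p, f ^ i) (v : V) = 0 := by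
    rw [← hy, ← Module.End.mul_apply, hgeom]
    rfl
  rw [LinearMap.sum_apply] at h1
  have h2 : ∀ i ∈ Finset.range p, (f ^ i) (v : V) = (v : V) := by
    intro i _
    rw [hpow i, hζ1, one_pow, one_smul]
  rw [Finset.sum_congr rfl h2, Finset.sum_const, Finset.card_range, ← Nat.cast_smul_eq_nsmul k] at h1
  rcases smul_eq_zero.mp h1 with h3 | h3
  · exact hp h3
  · exact hv0 h3

/-- the determinant on an invariant subspace -/
noncomputable def CAB_det {k V G : Type*} [Field k] [AddCommGroup V] [Module k V] [Group G]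
    (r : G →* Module.End k V) (W : Submodule k V) (hW : ∀ g : G, ∀ x ∈ W, r g x ∈ W) : G →* k where
  toFun g := LinearMap.det ((r g).restrict (hW g))
  map_one' := by
    have h1 : (r 1).restrict (hW 1) = 1 := by
      apply LinearMap.ext
      intro x
      apply Subtype.ext
      simp
    rw [h1, map_one]
  map_mul' g h := by
    have h1 : (r (g * h)).restrict (hW (g * h)) = (r g).restrict (hW g) * (r h).restrict (hW h) := by
      apply LinearMap.ext
      intro x
      apply Subtype.ext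
      simp
    rw [h1, map_mul]

theorem CAB : CAB_stmt := by
  intro p _ m k _ _ R hmp hp hfin hPE
  have hpp : p.Prime := Fact.out
  have : Finite R := hfin
  have hR : IsPGroup p R := by
    intro g
    obtain ⟨j, hj⟩ := hPE g g.2
    exact ⟨j, Subtype.ext (by push_cast; exact hj)⟩
  by_contra hcon
  push Not at hcon
  obtain ⟨x, hx, y, hy, hxy⟩ := hcon
  have hne : commutator R ≠ ⊥ := by
    intro h
    apply hxy
    have h1 := Subgroup.commutator_mem_commutator (Subgroup.mem_top (⟨x, hx⟩ : R)) (Subgroup.mem_top (⟨y, hy⟩ : R))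
    rw [← commutator_def, h, Subgroup.mem_bot, commutatorElement_eq_one_iff_mul_comm] at h1
    exact congrArg Subtype.val h1
  obtain ⟨z₀, hz₀, hz₀1, hz₀c⟩ := CAB_meet hR (commutator R) hne
  -- an element of order p
  obtain ⟨z, hz, hz1, hzp, hzc⟩ : ∃ z : R, z ∈ commutator R ∧ z ≠ 1 ∧ z ^ p = 1 ∧ ∀ g : R, g * z = z * g := by
    obtain ⟨j, hj⟩ := hR z₀
    classical
    have hex : ∃ j, z₀ ^ p ^ j = 1 := ⟨j, hj⟩
    have h1 := Nat.find_spec hex
    have h2 : Nat.find hex ≠ 0 := by
      intro h3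
      rw [h3, pow_zero, pow_one] at h1
      exact hz₀1 h1
    obtain ⟨i, hi⟩ := Nat.exists_eq_succ_of_ne_zero h2
    refine ⟨z₀ ^ p ^ i, Subgroup.pow_mem _ hz₀ _, ?_, ?_, ?_⟩
    · exact Nat.find_min hex (by omega)
    · rw [← pow_mul, ← pow_succ]
      rw [hi] at h1
      exact h1
    · intro g
      exact (Commute.pow_right (hz₀c g) _)
  -- linear algebra
  let r : R →* Module.End k (Fin m → k) :=
    ((Matrix.toLinAlgEquiv' : Matrix (Fin m) (Fin m) k ≃ₐ[k] _).toRingEquiv.toMonoidHom.comp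
      (Units.coeHom (Matrix (Fin m) (Fin m) k))).comp R.subtype
  have hrinj : ∀ g : R, r g = 1 → g = 1 := by
    intro g hg
    have h1 : (Matrix.toLinAlgEquiv' : Matrix (Fin m) (Fin m) k ≃ₐ[k] _) ((g : GL (Fin m) k) : Matrix (Fin m) (Fin m) k) =
        (Matrix.toLinAlgEquiv' : Matrix (Fin m) (Fin m) k ≃ₐ[k] _) 1 := by
      rw [map_one]
      exact hg
    have h2 := (Matrix.toLinAlgEquiv' : Matrix (Fin m) (Fin m) k ≃ₐ[k] _).injective h1
    exact Subtype.ext (Units.ext h2)
  obtain ⟨ζ, hζ1, hζp, hζ⟩ := CAB_eig hp (r z) (by rw [← map_pow, hzp, map_one]) (fun h => hz1 (hrinj z h))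
  have hW : ∀ g : R, ∀ x ∈ (r z).eigenspace ζ, r g x ∈ (r z).eigenspace ζ := by
    intro g x hx
    rw [Module.End.mem_eigenspace_iff] at hx ⊢
    rw [← Module.End.mul_apply, ← map_mul, ← hzc g, map_mul, Module.End.mul_apply, hx, map_smul]
  have hχ : (CAB_det r _ hW).toHomUnits z = 1 := by
    have h1 := Abelianization.commutator_subset_ker (CAB_det r _ hW).toHomUnits hz
    exact h1
  have hχ' : CAB_det r _ hW z = 1 := by
    have h1 := congrArg Units.val hχ
    exact h1
  have hdet : CAB_det r _ hW z = ζ ^ Module.finrank k ((r z).eigenspace ζ) := by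
    have h1 : (r z).restrict (hW z) = ζ • LinearMap.id := by
      apply LinearMap.ext
      intro x
      apply Subtype.ext
      have h2 := Module.End.mem_eigenspace_iff.mp x.2
      simpa using h2
    have h2 : CAB_det r _ hW z = LinearMap.det ((r z).restrict (hW z)) := rfl
    rw [h2, h1, LinearMap.det_smul, LinearMap.det_id, mul_one]
  have hd1 : Module.finrank k ((r z).eigenspace ζ) ≠ 0 := by
    intro h
    have h1 : (r z).eigenspace ζ = ⊥ := Submodule.finrank_eq_zero.mp h
    exact hζ h1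
  have hd2 : Module.finrank k ((r z).eigenspace ζ) < p := by
    have h1 := Submodule.finrank_le ((r z).eigenspace ζ)
    rw [Module.finrank_fin_fun] at h1
    omega
  have hd3 : ζ ^ Module.finrank k ((r z).eigenspace ζ) = 1 := by rw [← hdet, hχ']
  have hgcd : Nat.Coprime p (Module.finrank k ((r z).eigenspace ζ)) := by
    rw [hpp.coprime_iff_not_dvd]
    intro h
    have := Nat.le_of_dvd (by omega) h
    omega
  apply hζ1
  have h1 := orderOf_dvd_of_pow_eq_one hζp
  have h2 := orderOf_dvd_of_pow_eq_one hd3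
  have h3 := Nat.dvd_gcd h1 h2
  rw [Nat.Coprime.gcd_eq_one hgcd, Nat.dvd_one] at h3
  exact orderOf_eq_one_iff.mp h3

end Pool.Agent.AX
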