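import Pool.Agent.helper64.AX.SpecD

/-!
# Project AX (MP_2e0e07_nt), row CCR: the cross relation
-/

set_option autoImplicit false

namespace Pool.Agent.AX

open scoped MatrixGroups Pointwise

/-- Sylow subgroups and the Frattini argument -/
theorem CCR_sylow {p : ℕ} [Fact p.Prime] {D : Type*} [Group D] [Finite D] (D₂ : Subgroup D) (d₀ : D)
    (hd : ∀ y ∈ D₂, d₀ * y * d₀⁻¹ ∈ D₂) {x : D} (hx : x ∈ D₂) (hxp : PE p x) :
    ∃ P : Subgroup D, x ∈ P ∧ (∀ g ∈ P, PE p g) ∧ ∃ y ∈ D₂, ∀ g ∈ P, (y * d₀) * g * (y * d₀)⁻¹ ∈ P := by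
  have hz : IsPGroup p (Subgroup.zpowers (⟨x, hx⟩ : D₂)) := by
    rintro ⟨g, hg⟩
    obtain ⟨i, rfl⟩ := Subgroup.mem_zpowers_iff.mp hg
    obtain ⟨k, hk⟩ := hxp
    refine ⟨k, Subtype.ext ?_⟩
    have h1 : (⟨x, hx⟩ : D₂) ^ p ^ k = 1 := Subtype.ext (by push_cast; exact hk)
    push_cast
    rw [← zpow_natCast, ← zpow_mul, mul_comm, zpow_mul, zpow_natCast, h1, one_zpow]
  obtain ⟨P, hP⟩ := hz.exists_le_sylow
  let φ : D₂ →* D₂ := ((MulAut.conj d₀).toMonoidHom.comp D₂.subtype).codRestrict D₂ (fun y => hd y y.2)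
  have hφ : ∀ y : D₂, ((φ y : D₂) : D) = d₀ * y * d₀⁻¹ := fun y => rfl
  have hinj : Function.Injective φ := by
    intro a b hab
    have h1 := congrArg (Subtype.val) hab
    rw [hφ, hφ] at h1
    apply Subtype.ext
    exact mul_left_cancel (mul_right_cancel h1)
  have hcard : Nat.card ((P : Subgroup D₂).map φ) = p ^ (Nat.card D₂).factorization p := by
    rw [Subgroup.card_map_of_injective hinj]
    exact P.card_eq_multiplicity
  obtain ⟨y, hy⟩ := MulAction.exists_smul_eq D₂ (Sylow.ofCard _ hcard) P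
  refine ⟨(P : Subgroup D₂).map D₂.subtype, ?_, ?_, y, y.2, ?_⟩
  · exact Subgroup.mem_map.mpr ⟨⟨x, hx⟩, hP (Subgroup.mem_zpowers _), rfl⟩
  · intro g hg
    obtain ⟨g', hg', rfl⟩ := Subgroup.mem_map.mp hg
    obtain ⟨k, hk⟩ := P.isPGroup' ⟨g', hg'⟩
    refine ⟨k, ?_⟩
    have h1 : g' ^ p ^ k = 1 := congrArg Subtype.val hk
    rw [← map_pow, h1, map_one]
  · intro g hg
    obtain ⟨g', hg', rfl⟩ := Subgroup.mem_map.mp hg
    have h1 : φ g' ∈ (P : Subgroup D₂).map φ := Subgroup.mem_map.mpr ⟨g', hg', rfl⟩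
    have h2 : (MulAut.conj y) • (φ g') ∈ (MulAut.conj y) • ((P : Subgroup D₂).map φ) :=
      Subgroup.smul_mem_pointwise_smul _ _ _ h1
    have h3 : (MulAut.conj y) • ((P : Subgroup D₂).map φ) = (P : Subgroup D₂) := by
      have h4 := congrArg (fun Q : Sylow p D₂ => (Q : Subgroup D₂)) hy
      exact h4
    rw [h3] at h2
    refine Subgroup.mem_map.mpr ⟨_, h2, ?_⟩
    have h5 : (MulAut.conj y) • (φ g') = y * φ g' * y⁻¹ := rfl
    rw [h5]
    have h6 : D₂.subtype (y * φ g' * y⁻¹) = (y : D) * (d₀ * g' * d₀⁻¹) * (y : D)⁻¹ := rfl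
    rw [h6]
    have h7 : D₂.subtype g' = (g' : D) := rfl
    rw [h7]
    group

/-- a `p`-element over `u` -/
theorem CCR_lift {p : ℕ} [Fact p.Prime] {D G' : Type*} [Group D] [Finite D] [Group G'] (f : D →* G') {u : G'}
    (hu : u ∈ f.range) (hup : u ^ p = 1) : ∃ x : D, PE p x ∧ f x = u := by
  have hpp : p.Prime := Fact.out
  obtain ⟨g, rfl⟩ := hu
  have hn : orderOf g ≠ 0 := (orderOf_pos g).ne'
  obtain ⟨e, n', hn', hen⟩ := Nat.exists_eq_pow_mul_and_not_dvd hn p hpp.ne_one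
  have hco : Nat.Coprime n' p := by
    rw [Nat.coprime_comm, hpp.coprime_iff_not_dvd]
    exact hn'
  have hc : IsCoprime (n' : ℤ) (p : ℤ) := Nat.isCoprime_iff_coprime.mpr hco
  obtain ⟨a, b, hab⟩ := hc
  refine ⟨g ^ (a * n'), ⟨e, ?_⟩, ?_⟩
  · have h1 : g ^ (n' * p ^ e) = 1 := by
      rw [mul_comm, ← hen, pow_orderOf_eq_one]
    calc (g ^ (a * (n' : ℤ))) ^ p ^ e = (g ^ (n' * p ^ e)) ^ a := by
          rw [← zpow_natCast, ← zpow_mul, ← zpow_natCast, ← zpow_mul]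
          congr 1
          push_cast
          ring
      _ = 1 := by rw [h1, one_zpow]
  · rw [map_zpow]
    have h1 : a * (n' : ℤ) = 1 - b * p := by linarith
    rw [h1, zpow_sub, zpow_one, mul_comm b, zpow_mul, zpow_natCast, hup, one_zpow, inv_one, mul_one]

theorem CCR_coprime {p q : ℕ} (hp : p.Prime) (hq : q.Prime) (hpq : q ≠ p) {D : Type*} [Group D] (K : Subgroup D)
    {g : D} (h1 : PE p g) (h2 : ∃ k : ℕ, g ^ q ^ k ∈ K) : g ∈ K := by
  obtain ⟨j, hj⟩ := h1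
  obtain ⟨k, hk⟩ := h2
  have hco : Nat.Coprime (q ^ k) (p ^ j) := Nat.Coprime.pow _ _ ((Nat.coprime_primes hq hp).mpr hpq)
  obtain ⟨a, b, hab⟩ := Nat.isCoprime_iff_coprime.mpr hco
  have h3 : g = (g ^ q ^ k) ^ a * (g ^ p ^ j) ^ b := by
    rw [← zpow_natCast g (q ^ k), ← zpow_natCast g (p ^ j), ← zpow_mul, ← zpow_mul, ← zpow_add,
      mul_comm _ a, mul_comm _ b, hab, zpow_one]
  rw [h3, hj, one_zpow, mul_one]
  exact K.zpow_mem hk a

theorem CCR_powconj {G : Type*} [Group G] {F u : G} {s : ℕ} (h : F * u * F⁻¹ = u ^ s) (n : ℕ) :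
    F ^ n * u * (F ^ n)⁻¹ = u ^ s ^ n := by
  induction n with
  | zero => simp
  | succ n ih =>
    have h1 : F ^ (n + 1) * u * (F ^ (n + 1))⁻¹ = F ^ n * (F * u * F⁻¹) * (F ^ n)⁻¹ := by
      rw [pow_succ]
      group
    have h2 : F ^ n * u ^ s * (F ^ n)⁻¹ = (F ^ n * u * (F ^ n)⁻¹) ^ s := by
      rw [conj_pow]
    rw [h1, h, h2, ih, ← pow_mul, pow_succ]

theorem CCR (hCPE : CPE_stmt) (hCAB : CAB_stmt) : CCR_stmt := by
  intro p _ m D G' _ _ _ ι q d κ _ _ _ r K f u t s hmp hdm hq hKn hK hr hu ht hup htu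
  have hpp : p.Prime := Fact.out
  obtain ⟨x, hxp, hxu⟩ := CCR_lift f hu hup
  obtain ⟨d₀, hd₀⟩ := ht
  let D₂ : Subgroup D := (Subgroup.zpowers u).comap f
  have hxD : x ∈ D₂ := by
    rw [Subgroup.mem_comap, hxu]
    exact Subgroup.mem_zpowers u
  have hdD : ∀ y ∈ D₂, d₀ * y * d₀⁻¹ ∈ D₂ := by
    intro y hy
    rw [Subgroup.mem_comap] at hy ⊢
    obtain ⟨i, hi⟩ := Subgroup.mem_zpowers_iff.mp hy
    rw [map_mul, map_mul, map_inv, hd₀, ← hi]
    refine Subgroup.mem_zpowers_iff.mpr ⟨s * i, ?_⟩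
    have h1 : t * u ^ i * t⁻¹ = (t * u * t⁻¹) ^ i := (conj_zpow).symm
    rw [h1, htu, zpow_mul, zpow_natCast]
  obtain ⟨P, hxP, hPp, y, hyD, hPd⟩ := CCR_sylow D₂ d₀ hdD hxD hxp
  set e : D := y * d₀ with he
  -- f(e) acts on u as t
  have hfe : f e * u * (f e)⁻¹ = u ^ s := by
    rw [Subgroup.mem_comap] at hyD
    obtain ⟨i, hi⟩ := Subgroup.mem_zpowers_iff.mp hyD
    rw [he, map_mul, hd₀, ← hi]
    have h1 : u ^ i * t * u * (u ^ i * t)⁻¹ = u ^ i * (t * u * t⁻¹) * (u ^ i)⁻¹ := by group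
    rw [h1, htu]
    have h2 : Commute (u ^ i) (u ^ s) := (Commute.refl u).zpow_left i |>.pow_right s
    rw [h2.eq]
    group
  -- powers of e
  have hPi : ∀ i : ℕ, ∀ g ∈ P, e ^ i * g * (e ^ i)⁻¹ ∈ P := by
    intro i
    induction i with
    | zero =>
      intro g hg
      simpa using hg
    | succ i ih =>
      intro g hg
      have h1 : e ^ (i + 1) * g * (e ^ (i + 1))⁻¹ = e ^ i * (e * g * e⁻¹) * (e ^ i)⁻¹ := by
        rw [pow_succ]
        group
      rw [h1]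
      exact ih _ (hPd g hg)
  have hPinv : ∀ g ∈ P, e⁻¹ * g * e ∈ P := by
    intro g hg
    have hn : 0 < orderOf e := orderOf_pos e
    have h1 : e ^ (orderOf e - 1) = e⁻¹ := by
      have h2 : e ^ (orderOf e - 1) * e = 1 := by
        rw [← pow_succ, Nat.sub_add_cancel hn, pow_orderOf_eq_one]
      exact eq_inv_of_mul_eq_one_left h2
    have h3 := hPi (orderOf e - 1) g hg
    rwa [h1, inv_inv] at h3
  -- an element of P with trivial images is trivial
  have hone : ∀ g ∈ P, (∀ a, r a g = 1) → g = 1 := by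
    intro g hg h1
    apply hK
    intro a
    exact CCR_coprime hpp (hq a).1 (hq a).2 (K a) (hPp g hg) (hr a g (h1 a))
  have hpne : ∀ a, ((p : ℕ) : κ a) ≠ 0 := by
    intro a h
    have h1 := (CharP.cast_eq_zero_iff (κ a) (q a) p).mp h
    exact (hq a).2 ((Nat.prime_dvd_prime_iff_eq (hq a).1 hpp).mp h1)
  -- the images
  have hRfin : ∀ a, ((P.map (r a) : Subgroup (GL (Fin (d a)) (κ a))) : Set (GL (Fin (d a)) (κ a))).Finite := by
    intro a
    rw [Subgroup.coe_map]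
    exact (Set.toFinite _).image _
  have hRPE : ∀ a, ∀ g ∈ P.map (r a), PE p g := by
    intro a g hg
    obtain ⟨g', hg', rfl⟩ := Subgroup.mem_map.mp hg
    obtain ⟨k, hk⟩ := hPp g' hg'
    exact ⟨k, by rw [← map_pow, hk, map_one]⟩
  have hRcomm : ∀ a, ∀ g ∈ P.map (r a), ∀ h ∈ P.map (r a), g * h = h * g := fun a =>
    hCAB p (d a) (κ a) (P.map (r a)) (lt_of_le_of_lt (hdm a) hmp) (hpne a) (hRfin a) (hRPE a)
  have hcent : ∀ a, ∀ g ∈ P, (r a e) ^ m.factorial * r a g = r a g * (r a e) ^ m.factorial := by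
    intro a g hg
    have h1 := hCPE (d a) (κ a) (P.map (r a)) (r a e) (hRcomm a) ?_ ?_ (r a g) (Subgroup.mem_map.mpr ⟨g, hg, rfl⟩)
    · obtain ⟨c, hc⟩ := Nat.factorial_dvd_factorial (hdm a)
      rw [hc, pow_mul]
      exact (Commute.pow_left h1 c)
    · intro b hb
      obtain ⟨k, hk⟩ := hRPE a b hb
      refine ⟨p ^ k, ?_, hk⟩
      rw [Nat.cast_pow]
      exact pow_ne_zero _ (hpne a)
    · intro b
      constructor
      · intro hb
        obtain ⟨b', hb', rfl⟩ := Subgroup.mem_map.mp hb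
        refine Subgroup.mem_map.mpr ⟨e * b' * e⁻¹, hPd b' hb', ?_⟩
        rw [map_mul, map_mul, map_inv]
      · intro hb
        obtain ⟨b', hb', h2⟩ := Subgroup.mem_map.mp hb
        refine Subgroup.mem_map.mpr ⟨e⁻¹ * b' * e, hPinv b' hb', ?_⟩
        rw [map_mul, map_mul, map_inv, h2]
        group
  have hfin : e ^ m.factorial * x * (e ^ m.factorial)⁻¹ = x := by
    have h1 : e ^ m.factorial * x * (e ^ m.factorial)⁻¹ * x⁻¹ ∈ P :=
      P.mul_mem (hPi m.factorial x hxP) (P.inv_mem hxP)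
    have h2 : e ^ m.factorial * x * (e ^ m.factorial)⁻¹ * x⁻¹ = 1 := by
      apply hone _ h1
      intro a
      rw [map_mul, map_mul, map_mul, map_inv, map_inv, map_pow, hcent a x hxP]
      group
    exact mul_inv_eq_one.mp h2
  have h3 := CCR_powconj hfe m.factorial
  rw [← h3, ← hxu, ← map_pow, ← map_inv, ← map_mul, ← map_mul, hfin]

end Pool.Agent.AX
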