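import Pool.Agent.helper64.AX.SpecD

/-!
# Project AX (MP_2e0e07_nt), row CLW: the law for `p`-subgroups of `GL_m` in characteristic prime to `p`
-/

set_option autoImplicit false

namespace Pool.Agent.AX

open Matrix

theorem CLW (hCPE : CPE_stmt) (hCMA : CMA_stmt) : CLW_stmt := by
  intro p _ m k _ _ R hp hfin hPE x hx y hy
  have : Finite R := hfin
  have hPE' : ∀ g : R, PE p g := by
    intro g
    obtain ⟨j, hj⟩ := hPE g g.2
    exact ⟨j, Subtype.ext (by push_cast; exact hj)⟩
  obtain ⟨A, hAn, hAc, hAself⟩ := hCMA p R hPE'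
  have key : ∀ w : R, w ^ m.factorial ∈ A := by
    intro w
    apply hAself
    intro a ha
    have h1 := hCPE m k (A.map R.subtype) (w : GL (Fin m) k) ?_ ?_ ?_ (a : GL (Fin m) k)
      (Subgroup.mem_map.mpr ⟨a, ha, rfl⟩)
    · apply Subtype.ext
      push_cast
      exact h1
    · intro b hb c hc
      obtain ⟨b', hb', rfl⟩ := Subgroup.mem_map.mp hb
      obtain ⟨c', hc', rfl⟩ := Subgroup.mem_map.mp hc
      rw [← map_mul, ← map_mul, hAc b' hb' c' hc']
    · intro b hb
      obtain ⟨b', hb', rfl⟩ := Subgroup.mem_map.mp hb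
      obtain ⟨j, hj⟩ := hPE' b'
      refine ⟨p ^ j, ?_, ?_⟩
      · rw [Nat.cast_pow]
        exact pow_ne_zero _ hp
      · rw [← map_pow, hj, map_one]
    · intro b
      constructor
      · intro hb
        obtain ⟨b', hb', rfl⟩ := Subgroup.mem_map.mp hb
        exact Subgroup.mem_map.mpr ⟨w * b' * w⁻¹, hAn.conj_mem b' hb' w, rfl⟩
      · intro hb
        obtain ⟨b', hb', h2⟩ := Subgroup.mem_map.mp hb
        refine Subgroup.mem_map.mpr ⟨w⁻¹ * b' * w, ?_, ?_⟩
        · have h3 := hAn.conj_mem b' hb' w⁻¹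
          rwa [inv_inv] at h3
        · have h4 : b = (w : GL (Fin m) k)⁻¹ * ((w : GL (Fin m) k) * b * (w : GL (Fin m) k)⁻¹) * w := by group
          rw [h4, ← h2]
          rfl
  have h1 := hAc _ (key ⟨x, hx⟩) _ (key ⟨y, hy⟩)
  exact congrArg Subtype.val h1

end Pool.Agent.AX
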