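import Pool.Agent.helper64.AX.SpecD

/-!
# Project AX (MP_2e0e07_nt), row CMA: a finite `p`-group has a normal abelian subgroup which is its own centraliser
-/

set_option autoImplicit false

namespace Pool.Agent.AX

open Matrix

/-- a nontrivial normal subgroup of a finite `p`-group meets the centre -/
theorem CMA_meet {p : ℕ} [Fact p.Prime] {G : Type*} [Group G] [Finite G] (hG : IsPGroup p G) (N : Subgroup G)
    [N.Normal] (hN : N ≠ ⊥) : ∃ z ∈ N, z ≠ 1 ∧ ∀ g : G, g * z = z * g := by
  have hG' : IsPGroup p (ConjAct G) := hG.of_equiv ConjAct.toConjAct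
  have hcard : p ∣ Nat.card N := by
    have h1 : IsPGroup p N := hG.to_subgroup N
    obtain ⟨n, hn⟩ := IsPGroup.iff_card.mp h1
    have h2 : Nat.card N ≠ 1 := by
      intro h3
      exact hN (Subgroup.card_eq_one.mp h3)
    rcases Nat.eq_zero_or_pos n with h0 | h0
    · subst h0
      rw [pow_zero] at hn
      exact absurd hn h2
    · rw [hn]
      exact dvd_pow_self p (by omega)
  have h1 : (1 : N) ∈ MulAction.fixedPoints (ConjAct G) N := by
    intro g
    exact smul_one g
  obtain ⟨b, hb, hb1⟩ := hG'.exists_fixed_point_of_prime_dvd_card_of_fixed_point N hcard h1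
  refine ⟨b, b.2, ?_, ?_⟩
  · intro h2
    apply hb1
    symm
    exact Subtype.ext h2
  · intro g
    have h2 : (ConjAct.toConjAct g) • b = b := hb (ConjAct.toConjAct g)
    have h3 := congrArg (Subtype.val) h2
    rw [ConjAct.Subgroup.val_conj_smul, ConjAct.toConjAct_smul] at h3
    calc g * (b : G) = (g * b * g⁻¹) * g := by group
      _ = b * g := by rw [h3]

theorem CMA : CMA_stmt := by
  intro p _ G _ _ hPE
  have hG : IsPGroup p G := hPE
  let S : Set (Subgroup G) := {A | A.Normal ∧ ∀ a ∈ A, ∀ b ∈ A, a * b = b * a}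
  have hbot : (⊥ : Subgroup G) ∈ S := by
    refine ⟨inferInstance, ?_⟩
    intro a ha b hb
    rw [Subgroup.mem_bot] at ha hb
    rw [ha, hb]
  obtain ⟨A, hA⟩ := (Set.toFinite S).exists_maximal ⟨⊥, hbot⟩
  obtain ⟨hAn, hAc⟩ := hA.1
  refine ⟨A, hAn, hAc, ?_⟩
  have hAC : A ≤ Subgroup.centralizer (A : Set G) := by
    intro a ha
    rw [Subgroup.mem_centralizer_iff]
    intro b hb
    exact hAc b hb a ha
  have key : Subgroup.centralizer (A : Set G) ≤ A := by
    by_contra hcon
    have hne : (Subgroup.centralizer (A : Set G)).map (QuotientGroup.mk' A) ≠ ⊥ := by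
      intro h
      apply hcon
      rw [Subgroup.map_eq_bot_iff, QuotientGroup.ker_mk'] at h
      exact h
    have : ((Subgroup.centralizer (A : Set G)).map (QuotientGroup.mk' A)).Normal :=
      (inferInstance : (Subgroup.centralizer (A : Set G)).Normal).map _ (QuotientGroup.mk'_surjective A)
    obtain ⟨z, hz, hz1, hzc⟩ := CMA_meet (hG.to_quotient A) _ hne
    obtain ⟨c, hc, rfl⟩ := Subgroup.mem_map.mp hz
    have hcA : c ∉ A := by
      intro h
      apply hz1
      exact (QuotientGroup.eq_one_iff c).mpr h
    have hcomm : ∀ g : G, g * c * g⁻¹ * c⁻¹ ∈ A := by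
      intro g
      have h1 := hzc (QuotientGroup.mk' A g)
      rw [← QuotientGroup.eq_one_iff]
      have h2 : ((g * c * g⁻¹ * c⁻¹ : G) : G ⧸ A) =
          QuotientGroup.mk' A g * QuotientGroup.mk' A c * (QuotientGroup.mk' A g)⁻¹ * (QuotientGroup.mk' A c)⁻¹ := rfl
      rw [h2, h1]
      group
    let B : Subgroup G := A ⊔ Subgroup.zpowers c
    have hcC : Subgroup.zpowers c ≤ Subgroup.centralizer (A : Set G) := by
      rw [Subgroup.zpowers_le]
      exact hc
    have hcB : c ∈ B := (le_sup_right : Subgroup.zpowers c ≤ B) (Subgroup.mem_zpowers c)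
    have hBA : B ≤ Subgroup.centralizer (A : Set G) := sup_le hAC hcC
    have hBc : B ≤ Subgroup.centralizer ((Subgroup.zpowers c : Subgroup G) : Set G) := by
      apply sup_le
      · rw [Subgroup.le_centralizer_iff]
        exact hcC
      · intro x hx
        rw [Subgroup.mem_centralizer_iff]
        intro y hy
        obtain ⟨i, rfl⟩ := Subgroup.mem_zpowers_iff.mp hx
        obtain ⟨j, rfl⟩ := Subgroup.mem_zpowers_iff.mp hy
        exact (Commute.refl c).zpow_zpow j i
    have hBB : B ≤ Subgroup.centralizer (B : Set G) := by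
      apply sup_le
      · rw [Subgroup.le_centralizer_iff]
        exact hBA
      · rw [Subgroup.le_centralizer_iff]
        exact hBc
    have hBn : B.Normal := by
      refine ⟨fun n hn g => ?_⟩
      have h1 : B ≤ B.comap (MulAut.conj g).toMonoidHom := by
        apply sup_le
        · intro a ha
          rw [Subgroup.mem_comap]
          exact (le_sup_left : A ≤ B) (hAn.conj_mem a ha g)
        · rw [Subgroup.zpowers_le, Subgroup.mem_comap]
          have h2 : g * c * g⁻¹ = (g * c * g⁻¹ * c⁻¹) * c := by group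
          have h3 : (MulAut.conj g).toMonoidHom c = g * c * g⁻¹ := rfl
          rw [h3, h2]
          exact B.mul_mem ((le_sup_left : A ≤ B) (hcomm g)) hcB
      exact Subgroup.mem_comap.mp (h1 hn)
    have hBS : B ∈ S := by
      refine ⟨hBn, ?_⟩
      intro a ha b hb
      have h1 := hBB hb
      rw [Subgroup.mem_centralizer_iff] at h1
      exact h1 a ha
    have hle : B ≤ A := hA.2 hBS le_sup_left
    exact hcA (hle hcB)
  intro g hg
  apply key
  rw [Subgroup.mem_centralizer_iff]
  intro a ha
  exact (hg a ha).symm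

end Pool.Agent.AX
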